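import Mathlib
import Pool.Agent.H57.CP.Targets

/-!
# Linear algebra of the hyperboloid: modules SPN, MKI, EXT
-/

namespace Pool.Agent.H46.CP

open Pool.Agent.H57.CP

theorem mk_add_left (x y z : V4) : mk (x + y) z = mk x z + mk y z := by
  simp only [mk, Pi.add_apply]; ring

theorem mk_add_right (x y z : V4) : mk x (y + z) = mk x y + mk x z := by
  simp only [mk, Pi.add_apply]; ring

theorem mk_smul_left (c : ℝ) (x y : V4) : mk (c • x) y = c * mk x y := by
  simp only [mk, Pi.smul_apply, smul_eq_mul]; ring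

theorem mk_smul_right (c : ℝ) (x y : V4) : mk x (c • y) = c * mk x y := by
  simp only [mk, Pi.smul_apply, smul_eq_mul]; ring

theorem mk_sub_left (x y z : V4) : mk (x - y) z = mk x z - mk y z := by
  simp only [mk, Pi.sub_apply]; ring

theorem mk_neg_neg (x : V4) : mk (-x) (-x) = mk x x := by
  simp only [mk, Pi.neg_apply]; ring

theorem mk_sum_left {ι : Type} (s : Finset ι) (u : ι → V4) (z : V4) :
    mk (∑ i ∈ s, u i) z = ∑ i ∈ s, mk (u i) z := by
  classical
  induction s using Finset.induction_on with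
  | empty => simp [mk]
  | insert a s ha ih => rw [Finset.sum_insert ha, Finset.sum_insert ha, mk_add_left, ih]

theorem mk_sum_right {ι : Type} (s : Finset ι) (u : ι → V4) (z : V4) :
    mk z (∑ i ∈ s, u i) = ∑ i ∈ s, mk z (u i) := by
  classical
  induction s using Finset.induction_on with
  | empty => simp [mk]
  | insert a s ha ih => rw [Finset.sum_insert ha, Finset.sum_insert ha, mk_add_right, ih]

/-- The form is nondegenerate. -/
theorem eq_zero_of_mk (x : V4) (h : ∀ y, mk x y = 0) : x = 0 := by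
  have h0 := h ![1, 0, 0, 0]
  have h1 := h ![0, 1, 0, 0]
  have h2 := h ![0, 0, 1, 0]
  have h3 := h ![0, 0, 0, 1]
  simp [mk] at h0 h1 h2 h3
  ext i
  fin_cases i <;> simp [h0, h1, h2, h3]

/-- Four points of the hyperboloid which form a basis. -/
noncomputable def P : Fin 4 → H3 := ![
  ⟨![1, 0, 0, Real.sqrt 2], by
    have := Real.mul_self_sqrt (show (0 : ℝ) ≤ 2 by norm_num)
    simp only [mk, Matrix.cons_val]; rw [this]; norm_num, by simp⟩,
  ⟨![0, 1, 0, Real.sqrt 2], by
    have := Real.mul_self_sqrt (show (0 : ℝ) ≤ 2 by norm_num)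
    simp only [mk, Matrix.cons_val]; rw [this]; norm_num, by simp⟩,
  ⟨![0, 0, 1, Real.sqrt 2], by
    have := Real.mul_self_sqrt (show (0 : ℝ) ≤ 2 by norm_num)
    simp only [mk, Matrix.cons_val]; rw [this]; norm_num, by simp⟩,
  o]

/-- Coordinates with respect to this basis. -/
noncomputable def co (x : V4) : Fin 4 → ℝ :=
  ![x 0, x 1, x 2, x 3 - Real.sqrt 2 * (x 0 + x 1 + x 2)]

theorem dec (x : V4) : x = ∑ i, co x i • (P i).1 := by
  ext j
  fin_cases j <;> simp [Fin.sum_univ_four, co, P, o]
  ring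

theorem co_add (x y : V4) (i : Fin 4) : co (x + y) i = co x i + co y i := by
  fin_cases i <;> simp [co]
  ring

theorem co_smul (c : ℝ) (x : V4) (i : Fin 4) : co (c • x) i = c * co x i := by
  fin_cases i <;> simp [co]
  ring

theorem co_P (i j : Fin 4) : co (P i).1 j = if j = i then 1 else 0 := by
  fin_cases i <;> fin_cases j <;> simp [co, P, o]

theorem spn : T_SPN := by
  intro A B h
  refine LinearMap.ext fun x => ?_
  have hx : ∀ C : V4 →ₗ[ℝ] V4, C x = ∑ i, co x i • C (P i).1 := by
    intro C
    conv_lhs => rw [dec x, map_sum]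
    simp only [map_smul]
  rw [hx A, hx B]
  refine Finset.sum_congr rfl fun i _ => ?_
  rw [h (P i)]

theorem inj_of_mk (A : V4 →ₗ[ℝ] V4) (h : ∀ x y, mk (A x) (A y) = mk x y) :
    Function.Injective A := by
  rw [← LinearMap.ker_eq_bot, LinearMap.ker_eq_bot']
  intro x hx
  apply eq_zero_of_mk
  intro y
  rw [← h x y, hx]
  simp [mk]

theorem mki : T_MKI := by
  intro A hA
  obtain ⟨h1, h2⟩ := hA
  have hinj := inj_of_mk A h1
  have hsur : Function.Surjective A := LinearMap.injective_iff_surjective.mp hinj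
  have hback : ∀ z : V4, mk (A z) (A z) = 1 ∧ 0 < (A z) 3 → mk z z = 1 ∧ 0 < z 3 := by
    rintro z ⟨hz, hz3⟩
    have hzz : mk z z = 1 := by rw [← h1]; exact hz
    refine ⟨hzz, ?_⟩
    by_contra hneg
    rcases lt_or_eq_of_le (not_lt.mp hneg) with hlt | heq
    · have hm : mk (-z) (-z) = 1 ∧ 0 < (-z) 3 := by
        refine ⟨by rw [mk_neg_neg]; exact hzz, ?_⟩
        simpa using hlt
      have h3 := h2 ⟨-z, hm⟩
      simp only [map_neg, Pi.neg_apply] at h3
      linarith
    · have h4 : mk z z = -(z 0 ^ 2 + z 1 ^ 2 + z 2 ^ 2) := by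
        simp only [mk, heq]; ring
      have h5 : 0 ≤ z 0 ^ 2 + z 1 ^ 2 + z 2 ^ 2 := by positivity
      rw [h4] at hzz
      linarith
  let f : H3 → H3 := fun x => ⟨A x.1, by rw [h1]; exact x.2.1, h2 x⟩
  have hf : Function.Bijective f := by
    constructor
    · intro x y hxy
      have : A x.1 = A y.1 := congrArg Subtype.val hxy
      exact Subtype.ext (hinj this)
    · intro y
      obtain ⟨z, hz⟩ := hsur y.1
      refine ⟨⟨z, hback z (by rw [hz]; exact y.2)⟩, Subtype.ext hz⟩
  refine ⟨Equiv.ofBijective f hf, ?_, ?_⟩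
  · intro x y
    exact h1 x.1 y.1
  · intro x
    rfl

theorem ext' : T_EXT := by
  intro g hg
  let A : V4 →ₗ[ℝ] V4 :=
    { toFun := fun x => ∑ i, co x i • (g (P i)).1
      map_add' := fun x y => by
        simp only [co_add, add_smul, Finset.sum_add_distrib]
      map_smul' := fun c x => by
        simp only [co_smul, Finset.smul_sum, smul_smul, RingHom.id_apply] }
  have hA : ∀ x, A x = ∑ i, co x i • (g (P i)).1 := fun x => rfl
  have hmk : ∀ x y, mk (A x) (A y) = mk x y := by
    intro x y
    conv_rhs => rw [dec x, dec y]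
    rw [hA, hA, mk_sum_left, mk_sum_left]
    refine Finset.sum_congr rfl fun i _ => ?_
    rw [mk_sum_right, mk_sum_right]
    refine Finset.sum_congr rfl fun j _ => ?_
    rw [mk_smul_left, mk_smul_left, mk_smul_right, mk_smul_right]
    have := hg (P i) (P j)
    unfold ch at this
    rw [this]
  have hAP : ∀ i, A (P i).1 = (g (P i)).1 := by
    intro i
    rw [hA]
    simp only [co_P]
    simp
  have hinj := inj_of_mk A hmk
  have hsur : Function.Surjective A := LinearMap.injective_iff_surjective.mp hinj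
  have hext : Ext A g := by
    intro x
    have h0 : (g x).1 - A x.1 = 0 := by
      apply eq_zero_of_mk
      intro z
      obtain ⟨y, rfl⟩ := hsur z
      rw [hA y, mk_sum_right]
      refine Finset.sum_eq_zero fun i _ => ?_
      rw [mk_smul_right, mk_sub_left, ← hAP i, hmk, hAP i]
      have := hg x (P i)
      unfold ch at this
      rw [this]
      simp
    exact (sub_eq_zero.mp h0).symm
  refine ⟨A, ⟨hmk, fun x => ?_⟩, hext⟩
  rw [hext x]
  exact (g x).2.2

end Pool.Agent.H46.CP
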