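import Mathlib
import Pool.Agent.H57.CP.Targets

/-!
# Modules SGL, REL, SPF
-/

namespace Pool.Agent.H46.CP

open Pool.Agent.H57.CP

theorem lor_one : Lor (1 : V4 →ₗ[ℝ] V4) := ⟨fun _ _ => rfl, fun x => x.2.2⟩

theorem lor_mul (A B : V4 →ₗ[ℝ] V4) (hA : Lor A) (hB : Lor B) : Lor (A * B) := by
  refine ⟨fun x y => ?_, fun x => ?_⟩
  · change mk (A (B x)) (A (B y)) = mk x y
    rw [hA.1, hB.1]
  · exact hA.2 ⟨B x.1, by rw [hB.1]; exact x.2.1, hB.2 x⟩

theorem al_two (a b : ℕ) (i : Fin 3) : al a b i 2 = 0 := by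
  fin_cases i <;> simp [al]

theorem sgl (h1 : T_LOR) (h2 : T_ROO) : T_SGL := by
  intro a b σ hab hσ w
  refine (cm a b).toCoxeterSystem.simple_induction
    (p := fun w => Lor (σ w) ∧ ∀ x : V4, (σ w x) 2 = x 2) w ?_ ?_ ?_
  · intro i
    have h3 : σ ((cm a b).toCoxeterSystem.simple i) = refl (al a b i) := hσ i
    rw [h3]
    refine ⟨(h1.2.2 _ ((h2 a b hab).2.1 i)).1, fun x => ?_⟩
    change x 2 + 2 * mk (al a b i) x * al a b i 2 = x 2
    rw [al_two]; ring
  · rw [map_one]
    exact ⟨lor_one, fun _ => rfl⟩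
  · intro w w' hw hw'
    rw [map_mul]
    refine ⟨lor_mul _ _ hw.1 hw'.1, fun x => ?_⟩
    change (σ w (σ w' x)) 2 = x 2
    rw [hw.2, hw'.2]

theorem rel (h1 : T_ROO) (h2 : T_BRD) (h3 : T_LOR) : T_REL := by
  intro a b hab
  obtain ⟨-, hr1, hr2⟩ := h1 a b hab
  obtain ⟨ha, hb, -⟩ := hab
  have hl : (cm a b).IsLiftable (fun i => refl (al a b i)) := by
    intro i j
    by_cases hij : i = j
    · subst hij
      rw [(cm a b).diagonal i, pow_one]
      exact (h3.2.2 _ (hr1 i)).2
    · refine h2 _ _ _ ?_ (hr1 i) (hr1 j) (hr2 i j hij)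
      fin_cases i <;> fin_cases j <;> simp [cm] at hij ⊢ <;> omega
  refine ⟨(cm a b).toCoxeterSystem.lift ⟨_, hl⟩, fun i => ?_⟩
  exact CoxeterSystem.lift_apply_simple _ hl i

theorem spf (h1 : T_EXT) (_h2 : T_SPN) : T_SPF := by
  intro S g t d x z hd hx ht hz hS hg hgo hgv hgS hgS'
  obtain ⟨A, hA, hAg⟩ := h1 g hg
  have hdd : d * d = 1 := by rcases hd with h | h <;> rw [h] <;> norm_num
  have hcs := Real.sin_sq_add_cos_sq t
  set τ := Real.sqrt (1 + x ^ 2 + (0:ℝ) ^ 2 + z ^ 2) with hτ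
  have hv : (pt x 0 z).1 = ![x, 0, z, τ] := rfl
  have hSv : (S (pt x 0 z)).1 = ![x * Real.cos t, x * Real.sin t, d * z, τ] := by
    rw [← hS (pt x 0 z), hv]
    ext i
    fin_cases i <;> simp [rot] <;> ring
  have hSi : (S⁻¹ (pt x 0 z)).1 = ![x * Real.cos t, -(x * Real.sin t), d * z, τ] := by
    have h4 := hS (S⁻¹ (pt x 0 z))
    have h40 : S (S⁻¹ (pt x 0 z)) = pt x 0 z := Equiv.apply_symm_apply S _
    rw [h40, hv] at h4
    have h50 := congrFun h4 0
    have h51 := congrFun h4 1
    have h52 := congrFun h4 2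
    have h53 := congrFun h4 3
    simp only [rot, LinearMap.coe_mk, AddHom.coe_mk, Matrix.cons_val] at h50 h51 h52 h53
    ext i
    fin_cases i
    · simp only [Fin.zero_eta, Matrix.cons_val]
      linear_combination (-(S⁻¹ (pt x 0 z)).1 0) * hcs + Real.cos t * h50 + Real.sin t * h51
    · simp only [Fin.mk_one, Matrix.cons_val]
      linear_combination (-(S⁻¹ (pt x 0 z)).1 1) * hcs - Real.sin t * h50 + Real.cos t * h51
    · simp only [Fin.reduceFinMk, Matrix.cons_val]
      linear_combination (-(S⁻¹ (pt x 0 z)).1 2) * hdd + d * h52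
    · simp only [Fin.reduceFinMk, Matrix.cons_val]
      exact h53
  have hcd : Real.cos t - d ≠ 0 := by
    intro h
    have h5 : Real.cos t = d := by linarith
    have h6 : Real.sin t ^ 2 = 0 := by
      rw [h5] at hcs
      nlinarith
    exact ht (pow_eq_zero_iff (two_ne_zero) |>.mp h6)
  have e1 : A ![x, 0, z, τ] = ![x, 0, z, τ] := by
    rw [← hv, hAg, hgv]
  have e2 : A ![x * Real.cos t, x * Real.sin t, d * z, τ] =
      ![x * Real.cos t, x * Real.sin t, d * z, τ] := by
    rw [← hSv, hAg, hgS]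
  have e3 : A ![x * Real.cos t, -(x * Real.sin t), d * z, τ] =
      ![x * Real.cos t, -(x * Real.sin t), d * z, τ] := by
    rw [← hSi, hAg, hgS']
  have e4 : A ![0, 0, 0, 1] = ![0, 0, 0, 1] := by
    have := hAg o
    rw [hgo] at this
    exact this
  have hall : ∀ y : V4, A y = y := by
    intro y
    set s := (y 0 / x - y 2 / z) / (Real.cos t - d) with hs
    set β := y 0 / x - s * Real.cos t with hβ
    set r := y 1 / (x * Real.sin t) with hr
    have hy : y = (y 3 - (β + s) * τ) • ![0, 0, 0, 1] + β • ![x, 0, z, τ] +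
        ((s + r) / 2) • ![x * Real.cos t, x * Real.sin t, d * z, τ] +
        ((s - r) / 2) • ![x * Real.cos t, -(x * Real.sin t), d * z, τ] := by
      have hs' : s * (Real.cos t - d) = y 0 / x - y 2 / z := by
        rw [hs]; field_simp
      have hr' : r * (x * Real.sin t) = y 1 := by
        rw [hr]; field_simp
      have hx' : y 0 / x * x = y 0 := by field_simp
      have hz' : y 2 / z * z = y 2 := by field_simp
      ext i
      fin_cases i
      · simp
        rw [hβ]
        linear_combination (-1 : ℝ) * hx'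
      · simp
        linear_combination (-1 : ℝ) * hr'
      · simp
        rw [hβ]
        linear_combination z * hs' - hz'
      · simp
        ring
    conv_lhs => rw [hy]
    rw [map_add, map_add, map_add, map_smul, map_smul, map_smul, map_smul, e1, e2, e3, e4, ← hy]
  refine Equiv.ext fun p => ?_
  apply Subtype.ext
  rw [← hAg p, hall]
  rfl

end Pool.Agent.H46.CP
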